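import Pool.Agent.Q60.PL.Tot
import Pool.Agent.Y954.MW.B1

/-!
# MP_6451f1_ag: the crystalline part of the cohomology of the powers of a variety

Let `X` be a smooth proper variety over a `p`-adic field `K` whose residue field has `q` elements,
with bad reduction in the sense that the monodromy operator `N` of `H^*_pst(X)` is not zero. The
kernel of `N` on `H^m_pst` is the potentially crystalline part of `H^m`. Let `c_n` be the dimension of
the potentially crystalline part of the cohomology of `X^n`, `b` the sum of the Betti numbers of `X`,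
`A = 2 ∑ k rank (N ^ k)`, `B = ∑ (w - m)²` over the Frobenius eigenvalues of weight `w` on the
`H^m_pst(X)`, and `h = ∑ (a - c)² h^(a, c)` over the Hodge numbers of `X`.

* `c_n` is asymptotic to `b^n √(2 b / (π A n))`; so `1 / √n` is the exact order of the proportion of the
  crystalline part;
* `A = B` if and only if the `p`-adic monodromy-weight conjecture holds for `X`;
* if the characteristic polynomials of the Frobenius on the `H^m_pst(X)` have rational coefficients,
  then `A ≤ B ≤ h`, so that `c_n` is at least `(1 - ε) b^n √(2 b / (π h n))` for large `n`: a lower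
  bound which depends only on the Hodge numbers; if `A = h`, the `p`-adic monodromy-weight
  conjecture holds for `X`.
-/

set_option autoImplicit false

open Module Filter Topology

universe u v w

namespace Pool.Agent.Results.MP_6451f1_ag.CrystallinePart

open Pool.Agent.H914 Pool.Agent.Y143 Pool.Agent.Y163.MW Pool.Agent.Y163.MX Pool.Agent.Q60.PL

/-- **The crystalline part of the cohomology of powers.** -/
theorem result {K : Type u} [Field K] {Ω : Type w} [Field Ω] [CharZero Ω] [IsAlgClosed Ω]
    {T : PTheory.{u, v, w} K Ω} {q : ℕ} (hq : 1 < q) (hT : IsPadic T q) (X : SmVar.{u} K)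
    (hN : (T.H X).N ≠ 0) (b A B h : ℝ) (hb : b = finrank Ω (T.H X).V)
    (hA : A = (T.H X).totRankMoment) (hB : B = (T.H X).totWeightMoment q)
    (hh : h = totHodge T X) :
    Tendsto (fun n : ℕ => √((n + 1 : ℕ) : ℝ) * (((T.H (pow X n)).inv : ℝ) / b ^ (n + 1))) atTop
      (𝓝 √(2 * b / (Real.pi * A))) ∧
    (A = B ↔ ∀ m, (T.H X).MWPure q m) ∧
    ((∀ m, RationalPoly (charP (T.H X) m)) → 0 < A ∧ A ≤ B ∧ B ≤ h ∧
      (∀ ε : ℝ, 0 < ε → ∀ᶠ n : ℕ in atTop, (1 - ε) * √(2 * b / (Real.pi * h)) * b ^ (n + 1) ≤
        √((n + 1 : ℕ) : ℝ) * ((T.H (pow X n)).inv : ℝ)) ∧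
      (A = h → ∀ m, (T.H X).MWPure q m)) := by
  have hT' := hT.isLocal
  obtain ⟨S, H⟩ := exists_powSeq hq hT' X
  obtain ⟨hle, hiff⟩ := Coh.moment_tot hq (hT.isP.coh X)
  have hApos : 0 < (T.H X).totRankMoment := Coh.totRank_pos hq (hT.isP.coh X) hN
  have hlim : Tendsto (fun n : ℕ => √((n + 1 : ℕ) : ℝ) * (((T.H (pow X n)).inv : ℝ) /
      b ^ (n + 1))) atTop (𝓝 √(2 * b / (Real.pi * A))) := by
    have h1 := H.rayleigh hN (le_refl (0 : ℝ))
    subst hb hA
    rw [Coh.totRank_eq S]
    unfold rayLim at h1
    have h2 : √(2 * (finrank Ω (T.H X).V : ℝ) / (Real.pi * ((∑ p, S.ct p ^ 2 : ℤ) : ℝ))) *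
        Real.exp (-(0 ^ 2 * (finrank Ω (T.H X).V : ℝ) / (2 * ((∑ p, S.ct p ^ 2 : ℤ) : ℝ)))) =
        √(2 * (finrank Ω (T.H X).V : ℝ) / (Real.pi * ((∑ p, S.ct p ^ 2 : ℤ) : ℝ))) := by
      norm_num
    refine (h2 ▸ h1).congr fun n => ?_
    congr 2
    rw [zero_mul, Nat.floor_zero]
    unfold numBlocks Coh.inv
    rw [zero_add, pow_one, pow_zero]
    have h3 : LinearMap.ker (1 : Module.End Ω (T.H (pow X n)).V) = ⊥ := LinearMap.ker_id
    rw [h3, finrank_bot, Nat.sub_zero]
  refine ⟨hlim, ?_, fun hrat => ?_⟩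
  · subst hA hB
    rw [← hiff]
    exact_mod_cast Iff.rfl
  · have hBh := weight_le_hodge hq hT X hrat
    have hA0 : 0 < A := by rw [hA]; exact_mod_cast hApos
    have hAB : A ≤ B := by rw [hA, hB]; exact_mod_cast hle
    have hBh' : B ≤ h := by rw [hB, hh]; exact_mod_cast hBh
    refine ⟨hA0, hAB, hBh', fun ε hε => ?_, fun hAh => ?_⟩
    · have hpos : 0 < finrank Ω (T.H X).V := by
        by_contra hcon
        have h0 : finrank Ω (T.H X).V = 0 := by omega
        have := (hT.isP.coh X).finite
        apply hN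
        have hs : Subsingleton (T.H X).V := finrank_zero_iff.1 h0
        ext x
        exact Subsingleton.elim _ _
      have hb0 : 0 < b := by rw [hb]; exact_mod_cast hpos
      have hh0 : 0 < h := by linarith
      have h1 : (1 - ε) * √(2 * b / (Real.pi * h)) < √(2 * b / (Real.pi * A)) := by
        have h2 : √(2 * b / (Real.pi * h)) ≤ √(2 * b / (Real.pi * A)) := by
          apply Real.sqrt_le_sqrt
          have := Real.pi_pos
          gcongr
          linarith
        have h3 : 0 < √(2 * b / (Real.pi * h)) := by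
          apply Real.sqrt_pos.2
          have := Real.pi_pos
          positivity
        nlinarith
      filter_upwards [hlim.eventually (eventually_gt_nhds h1)] with n hn
      have h4 : (0 : ℝ) < b ^ (n + 1) := by positivity
      have h5 : √((n + 1 : ℕ) : ℝ) * (((T.H (pow X n)).inv : ℝ) / b ^ (n + 1)) * b ^ (n + 1) =
          √((n + 1 : ℕ) : ℝ) * ((T.H (pow X n)).inv : ℝ) := by
        field_simp
      rw [← h5]
      gcongr
    · apply hiff.1
      have h1 : A = B := le_antisymm hAB (by rw [hAh]; exact hBh')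
      rw [hA, hB] at h1
      exact_mod_cast h1

end Pool.Agent.Results.MP_6451f1_ag.CrystallinePart
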