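import Pool.Agent.Q60.PL.Tot
import Pool.Agent.Y954.MW.B1

/-!
# MP_6451f1_ag: the monodromy of the powers of a variety in `p`-adic and in `ℓ`-adic cohomology

Let `X` be a smooth proper variety over a `p`-adic field `K` whose residue field has `q` elements, and let
the monodromy operators `N` of `H^*_pst(X)` and `N'` of the `ℓ`-adic cohomology, `ℓ ≠ p`, be not zero. Let
`b` be the sum of the Betti numbers, `A = 2 ∑ k rank (N ^ k)` and `A' = 2 ∑ k rank (N' ^ k)`.

* For `t ≥ 0` the number of the Jordan blocks of size greater than `t √n` of the `p`-adic monodromy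
  operator of `X^n`, divided by the same number for the `ℓ`-adic one, tends to
  `√(A' / A) exp (t² b (1 / A' - 1 / A) / 2)`. In particular (`t = 0`) the dimension of the potentially
  crystalline part of the cohomology of `X^n`, divided by the dimension of the invariants of (an open
  subgroup of) the inertia group in the `ℓ`-adic cohomology, tends to `√(A' / A)`.
* Suppose that the Frobenius eigenvalues on the `H^m(X)` have the same weights with the same
  multiplicities in both theories. If the `ℓ`-adic weight-monodromy conjecture holds for `X`, then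
  `A ≤ A'`, so that the limit for `t = 0` is at least one, and it is one if and only if the `p`-adic
  weight-monodromy conjecture holds for `X`; and conversely.
-/

set_option autoImplicit false

open Module Filter Topology

universe u v w v' w'

namespace Pool.Agent.Results.MP_6451f1_ag.EllAdicComparison

open Pool.Agent.H914 Pool.Agent.Y143 Pool.Agent.Y163.MW Pool.Agent.Y163.MX Pool.Agent.Q60.PL

/-- The Frobenius eigenvalues on all `H^m` have the same weights with the same multiplicities. -/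
def SameWeights {Ω : Type w} [Field Ω] [CharZero Ω] {Ω' : Type w'} [Field Ω'] [CharZero Ω']
    (R : Coh.{v, w} Ω) (R' : Coh.{v', w'} Ω') (q : ℕ) : Prop :=
  ∀ (m : ℕ) (c : ℤ), finrank Ω (R.exc q m c) = finrank Ω' (R'.exc q m c)

section

variable {K : Type u} [Field K] {Ω : Type w} [Field Ω] [CharZero Ω] [IsAlgClosed Ω]
  {T : Theory.{u, v, w} K Ω} {q : ℕ}

lemma betti_pos (hT : T.IsLocal q) (X : SmVar.{u} K) (hN : (T.H X).N ≠ 0) :
    0 < finrank Ω (T.H X).V := by
  by_contra hcon
  have h0 : finrank Ω (T.H X).V = 0 := by omega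
  have := (hT.coh X).finite
  apply hN
  have hs : Subsingleton (T.H X).V := finrank_zero_iff.1 h0
  ext x
  exact Subsingleton.elim _ _

lemma blocks (hq : 1 < q) (hT : T.IsLocal q) (X : SmVar.{u} K) (hN : (T.H X).N ≠ 0) (b A : ℝ)
    (hb : b = finrank Ω (T.H X).V) (hA : A = (T.H X).totRankMoment) {t : ℝ} (ht : 0 ≤ t) :
    Tendsto (fun n : ℕ => √((n + 1 : ℕ) : ℝ) *
      ((numBlocks (T.H (pow X n)).N ⌊t * √((n + 1 : ℕ) : ℝ)⌋₊ : ℝ) / b ^ (n + 1))) atTop
      (𝓝 (√(2 * b / (Real.pi * A)) * Real.exp (-(t ^ 2 * b / (2 * A))))) := by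
  obtain ⟨S, H⟩ := exists_powSeq hq hT X
  have h2 := H.rayleigh hN ht
  subst hb hA
  rw [Coh.totRank_eq S]
  exact h2

lemma rank_pos (hq : 1 < q) (hT : T.IsLocal q) (X : SmVar.{u} K) (hN : (T.H X).N ≠ 0) :
    (0 : ℝ) < (T.H X).totRankMoment := by
  exact_mod_cast Coh.totRank_pos hq (hT.coh X) hN

lemma numBlocks_zero (R : Coh.{v, w} Ω) : numBlocks R.N 0 = R.inv := by
  unfold numBlocks Coh.inv
  rw [zero_add, pow_one, pow_zero]
  have h3 : LinearMap.ker (1 : Module.End Ω R.V) = ⊥ := LinearMap.ker_id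
  rw [h3, finrank_bot, Nat.sub_zero]

end

/-- **Comparison of the `p`-adic with the `ℓ`-adic monodromy on powers.** -/
theorem result {K : Type u} [Field K] {Ω : Type w} [Field Ω] [CharZero Ω] [IsAlgClosed Ω]
    {Ω' : Type w'} [Field Ω'] [CharZero Ω'] [IsAlgClosed Ω'] {T : PTheory.{u, v, w} K Ω}
    {T' : Theory.{u, v', w'} K Ω'} {q : ℕ} (hq : 1 < q) (hT : IsPadic T q) (hT' : T'.IsLocal q)
    (X : SmVar.{u} K) (b A A' : ℝ) (hb : b = finrank Ω (T.H X).V)
    (hb' : b = finrank Ω' (T'.H X).V) (hA : A = (T.H X).totRankMoment)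
    (hA' : A' = (T'.H X).totRankMoment) :
    ((T.H X).N ≠ 0 → (T'.H X).N ≠ 0 →
      (∀ t : ℝ, 0 ≤ t → Tendsto (fun n : ℕ =>
        (numBlocks (T.H (pow X n)).N ⌊t * √((n + 1 : ℕ) : ℝ)⌋₊ : ℝ) /
          (numBlocks (T'.H (pow X n)).N ⌊t * √((n + 1 : ℕ) : ℝ)⌋₊ : ℝ)) atTop
        (𝓝 (√(A' / A) * Real.exp (t ^ 2 * b * (1 / A' - 1 / A) / 2)))) ∧
      Tendsto (fun n : ℕ => ((T.H (pow X n)).inv : ℝ) / ((T'.H (pow X n)).inv : ℝ)) atTop
        (𝓝 √(A' / A))) ∧
    (SameWeights (T.H X) (T'.H X) q →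
      ((∀ m, (T'.H X).MWPure q m) → A ≤ A' ∧ (A = A' ↔ ∀ m, (T.H X).MWPure q m)) ∧
      ((∀ m, (T.H X).MWPure q m) → A' ≤ A ∧ (A = A' ↔ ∀ m, (T'.H X).MWPure q m))) := by
  constructor
  · intro hN hN'
    have hA0 : 0 < A := by rw [hA]; exact rank_pos hq hT.isLocal X hN
    have hA0' : 0 < A' := by rw [hA']; exact rank_pos hq hT' X hN'
    have hb0 : 0 < b := by rw [hb]; exact_mod_cast betti_pos hT.isLocal X hN
    have hpi := Real.pi_pos
    have hmain : ∀ t : ℝ, 0 ≤ t → Tendsto (fun n : ℕ =>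
        (numBlocks (T.H (pow X n)).N ⌊t * √((n + 1 : ℕ) : ℝ)⌋₊ : ℝ) /
          (numBlocks (T'.H (pow X n)).N ⌊t * √((n + 1 : ℕ) : ℝ)⌋₊ : ℝ)) atTop
        (𝓝 (√(A' / A) * Real.exp (t ^ 2 * b * (1 / A' - 1 / A) / 2))) := by
      intro t ht
      have h1 := blocks hq hT.isLocal X hN b A hb hA ht
      have h2 := blocks hq hT' X hN' b A' hb' hA' ht
      have hs : 0 < √(2 * b / (Real.pi * A')) := Real.sqrt_pos.2 (by positivity)
      have h3 := h1.div h2 (by positivity)
      have e1 : √(2 * b / (Real.pi * A)) * Real.exp (-(t ^ 2 * b / (2 * A))) /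
          (√(2 * b / (Real.pi * A')) * Real.exp (-(t ^ 2 * b / (2 * A')))) =
          √(A' / A) * Real.exp (t ^ 2 * b * (1 / A' - 1 / A) / 2) := by
        rw [mul_div_mul_comm, ← Real.exp_sub, ← Real.sqrt_div (by positivity)]
        congr 2
        · field_simp
        · field_simp
          ring
      rw [e1] at h3
      refine h3.congr fun n => ?_
      simp only [Pi.div_apply]
      have h6 : √((n + 1 : ℕ) : ℝ) ≠ 0 := (Real.sqrt_pos.2 (by positivity)).ne'
      have h7 : b ^ (n + 1) ≠ 0 := by positivity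
      rw [mul_div_mul_left _ _ h6, div_div_div_cancel_right₀ h7]
    refine ⟨hmain, ?_⟩
    have h1 := hmain 0 le_rfl
    have e2 : √(A' / A) * Real.exp (0 ^ 2 * b * (1 / A' - 1 / A) / 2) = √(A' / A) := by
      norm_num
    rw [e2] at h1
    refine h1.congr fun n => ?_
    rw [zero_mul, Nat.floor_zero, numBlocks_zero, numBlocks_zero]
  · intro hw
    obtain ⟨h1, h2⟩ := Coh.moment_tot hq (hT.isP.coh X)
    obtain ⟨h1', h2'⟩ := Coh.moment_tot hq (hT'.coh X)
    have hB : (T.H X).totWeightMoment q = (T'.H X).totWeightMoment q := by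
      rw [totWeight_sum hq (hT.isP.coh X), totWeight_sum hq (hT'.coh X)]
      refine finsum_congr fun m => ?_
      unfold Coh.weightMoment squareSum
      exact finsum_congr fun c => by rw [hw m c]
    refine ⟨fun hmw => ?_, fun hmw => ?_⟩
    · have e1 : (T'.H X).totRankMoment = (T'.H X).totWeightMoment q := h2'.2 hmw
      have e2 : (T'.H X).totRankMoment = (T.H X).totWeightMoment q := by rw [e1, hB]
      rw [hA, hA', e2]
      refine ⟨by exact_mod_cast h1, ?_⟩
      rw [← h2]
      exact_mod_cast Iff.rfl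
    · have e1 : (T.H X).totRankMoment = (T.H X).totWeightMoment q := h2.2 hmw
      have e2 : (T.H X).totRankMoment = (T'.H X).totWeightMoment q := by rw [e1, hB]
      rw [hA, hA', e2]
      refine ⟨by exact_mod_cast h1', ?_⟩
      rw [← h2']
      constructor
      · intro h
        exact_mod_cast h.symm
      · intro h
        exact_mod_cast h.symm

end Pool.Agent.Results.MP_6451f1_ag.EllAdicComparison
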