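import Pool.Agent.Q60.PL.Tot

/-!
# MP_6451f1_ag: the deviations from the p-adic monodromy-weight conjecture on powers

Let `X` be a smooth proper variety over a `p`-adic field whose residue field has `q` elements. For a
Frobenius eigenvalue on the graded piece `gr_s` of the monodromy filtration of `H^m_pst(X^n)` the
defect is the difference of its weight and the predicted weight `m + s`. If the conjecture holds for
`X`, all defects on all powers are zero. If it fails, the defects on `X^n`, divided by `√n`, are
asymptotically normally distributed with mean `0` and variance `(B - A) / b > 0`, where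
`A = 2 ∑ k rank (N ^ k)`, `B = ∑ (w - m)²`, `b = ∑ dim H^m(X)`. If the characteristic polynomials of
the Frobenius have rational coefficients, the variance is at most `(h - A) / b`, where
`h = ∑ (a - c)² h^(a, c)` is given by the Hodge numbers, so that the limit of the proportion of the
eigenvalues with defect at most `t √n` is bounded from below in terms of the Hodge numbers and the
ranks of the powers of `N`.
-/

set_option autoImplicit false

open Module Filter Topology

universe u v w

namespace Pool.Agent.Results.MP_6451f1_ag.NormalDefects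

open Pool.Agent.H914 Pool.Agent.Y143 Pool.Agent.Y163.MW Pool.Agent.Y163.MX Pool.Agent.Q60.PL

/-- **The defects are zero or asymptotically normally distributed.** -/
theorem result {K : Type u} [Field K] {Ω : Type w} [Field Ω] [CharZero Ω] [IsAlgClosed Ω]
    {T : PTheory.{u, v, w} K Ω} {q : ℕ} (hq : 1 < q) (hT : IsPadic T q) (X : SmVar.{u} K)
    (M : ∀ n, ℤ → Submodule Ω (T.H (pow X n)).V)
    (hM : ∀ n, IsMonodromyFiltrationOn ⊤ (T.H (pow X n)).N (M n))
    (b A B h : ℝ) (hb : b = finrank Ω (T.H X).V)
    (hA : A = (T.H X).totRankMoment) (hB : B = (T.H X).totWeightMoment q)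
    (hh : h = totHodge T X) :
    ((∀ m, (T.H X).MWPure q m) → ∀ n, (nearDefects (T.H (pow X n)) q (M n) 0 : ℝ) = b ^ (n + 1)) ∧
    (¬ (∀ m, (T.H X).MWPure q m) → A < B ∧ ∀ t : ℝ, 0 ≤ t →
      Tendsto (fun n : ℕ => (nearDefects (T.H (pow X n)) q (M n) (t * √((n + 1 : ℕ) : ℝ)) : ℝ) /
        b ^ (n + 1)) atTop (𝓝 (normalWindow (t / √((B - A) / b)))) ∧
      ((∀ m, RationalPoly (charP (T.H X) m)) →
        B ≤ h ∧ normalWindow (t / √((h - A) / b)) ≤ normalWindow (t / √((B - A) / b)))) := by
  have hT' := hT.isLocal
  obtain ⟨S, H⟩ := exists_powSeq hq hT' X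
  obtain ⟨hle, hiff⟩ := Coh.moment_tot hq (hT.isP.coh X)
  refine ⟨fun h n => ?_, fun h' => ?_⟩
  · have h1 := (Coh.mw_iff hq (hT.isP.coh X) S).1 h
    subst hb
    refine H.defects_zero (fun p => ?_) M hM n
    unfold Strings.wt Strings.ct
    rw [h1 p.1]
    ring
  · have h1 : (T.H X).totRankMoment < (T.H X).totWeightMoment q :=
      lt_of_le_of_ne hle fun h2 => h' (hiff.1 h2)
    have hAB : A < B := by rw [hA, hB]; exact_mod_cast h1
    refine ⟨hAB, fun t ht => ⟨?_, fun hrat => ?_⟩⟩
    · have h2 := H.defects (exists_defect_ne hq (hT.isP.coh X) S h') ht M hM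
      subst hb hA hB
      rw [Coh.totRank_eq S, Coh.totWeight_eq hq (hT.isP.coh X) S]
      exact h2
    · have hBh' : B ≤ h := by rw [hB, hh]; exact_mod_cast weight_le_hodge hq hT X hrat
      refine ⟨hBh', ?_⟩
      have hpos : 0 < finrank Ω (T.H X).V := by
        by_contra hcon
        have h0 : finrank Ω (T.H X).V = 0 := by omega
        have := (hT.isP.coh X).finite
        have hs : Subsingleton (T.H X).V := finrank_zero_iff.1 h0
        obtain ⟨p, hp⟩ := exists_defect_ne hq (hT.isP.coh X) S h'
        have : S.b p = 0 := Subsingleton.elim _ _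
        exact S.b.ne_zero p this
      have hb0 : 0 < b := by rw [hb]; exact_mod_cast hpos
      have h3 : 0 < √((B - A) / b) := Real.sqrt_pos.2 (div_pos (by linarith) hb0)
      have h4 : √((B - A) / b) ≤ √((h - A) / b) := Real.sqrt_le_sqrt (by gcongr)
      have h5 : t / √((h - A) / b) ≤ t / √((B - A) / b) := by gcongr
      unfold normalWindow
      exact MeasureTheory.measureReal_mono (Set.Icc_subset_Icc (neg_le_neg h5) h5)

end Pool.Agent.Results.MP_6451f1_ag.NormalDefects
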